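import Pool.Agent.X3.Seq.Main

/-!
# The smallest relative term of type A sequences
-/

set_option autoImplicit false

namespace Pool.Agent.Results.MP_6f4934_co.SmallestTerm

/-- The coefficient vector of the type A equation with blocks `i ≤ t < j` and `j ≤ t < k`
(coordinates are numbered from `0`): `1` on the first block, `-1` on the second block, `0`
elsewhere. -/
def eqn (n i j k : ℕ) : Fin n → ℝ := fun t =>
  (if i ≤ (t : ℕ) ∧ (t : ℕ) < j then 1 else 0) - (if j ≤ (t : ℕ) ∧ (t : ℕ) < k then 1 else 0)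

/-- `d` is a type A sequence of length `m + 1`: all terms are positive and `d` satisfies `m`
linearly independent type A equations. -/
def TypeA {m : ℕ} (d : Fin (m + 1) → ℝ) : Prop :=
  (∀ t, 0 < d t) ∧ ∃ i j k : Fin m → ℕ,
    (∀ s, i s < j s ∧ j s < k s ∧ k s ≤ m + 1) ∧
    LinearIndependent ℝ (fun s => eqn (m + 1) (i s) (j s) (k s)) ∧
    ∀ s, ∑ t, eqn (m + 1) (i s) (j s) (k s) t * d t = 0

lemma eqn_cast (n i j k : ℕ) : eqn n i j k =
    fun t => (((Pool.Agent.X3.Seq.ivl n i j - Pool.Agent.X3.Seq.ivl n j k) t : ℤ) : ℝ) := by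
  funext t
  simp only [eqn, Pool.Agent.X3.Seq.ivl, Pi.sub_apply]
  push_cast
  rfl

/-- **For sequences of `n = m + 1` terms the minimum of `min d / ∑ d` over all type A sequences
equals `1 / 2 ^ (n - 1)`.** -/
theorem result : ∀ m : ℕ, IsLeast {x : ℝ | ∃ d : Fin (m + 1) → ℝ, TypeA d ∧
    x = (Finset.univ.inf' Finset.univ_nonempty d) / ∑ t, d t} (1 / 2 ^ m) := by
  intro m
  constructor
  · refine ⟨fun t => Pool.Agent.X3.Seq.dbl t, ⟨fun t => Pool.Agent.X3.Seq.dbl_pos t,
      fun _ => 0, fun s => s + 1, fun s => s + 2, ?_, ?_, ?_⟩, ?_⟩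
    · intro s
      have := s.isLt
      dsimp only
      refine ⟨by omega, by omega, by omega⟩
    · simp only [eqn_cast]
      exact Pool.Agent.X3.Seq.dbl_indep m
    · intro s
      rw [eqn_cast]
      exact Pool.Agent.X3.Seq.dbl_eq m s
    · have h1 : Finset.univ.inf' Finset.univ_nonempty
          (fun t : Fin (m + 1) => Pool.Agent.X3.Seq.dbl t) = 1 := by
        refine le_antisymm ?_ ?_
        · refine (Finset.inf'_le _ (Finset.mem_univ (0 : Fin (m + 1)))).trans ?_
          simp [Pool.Agent.X3.Seq.dbl]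
        · exact Finset.le_inf' _ _ fun t _ => Pool.Agent.X3.Seq.one_le_dbl t
      have h2 : ∑ t : Fin (m + 1), Pool.Agent.X3.Seq.dbl t = 2 ^ m := by
        rw [Fin.sum_univ_eq_sum_range (fun t => Pool.Agent.X3.Seq.dbl t) (m + 1)]
        exact Pool.Agent.X3.Seq.sum_dbl m
      rw [h1, h2]
  · rintro x ⟨d, ⟨hd, i, j, k, hijk, hli, heq⟩, rfl⟩
    have hpos : 0 < ∑ t, d t := Finset.sum_pos (fun t _ => hd t) Finset.univ_nonempty
    rw [div_le_div_iff₀ (by positivity) hpos, one_mul]
    obtain ⟨t, _, ht⟩ := Finset.exists_mem_eq_inf' Finset.univ_nonempty d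
    rw [ht, mul_comm]
    refine Pool.Agent.X3.Seq.bound d hd
      (fun s => Pool.Agent.X3.Seq.ivl (m + 1) (i s) (j s) -
        Pool.Agent.X3.Seq.ivl (m + 1) (j s) (k s)) ?_ ?_ ?_ t
    · intro s
      have := hijk s
      exact ⟨i s, j s, j s, k s, by omega, by omega, by omega, by omega, rfl⟩
    · simp only [eqn_cast] at hli
      exact hli
    · intro s
      have h := heq s
      rw [eqn_cast] at h
      exact h

end Pool.Agent.Results.MP_6f4934_co.SmallestTerm
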